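import Pool.Agent.Y262.NU.Stm

/-!
# Project NU: monotone decrease of eigenvalues
-/

set_option autoImplicit false

open Set Filter Topology

noncomputable section

namespace Pool.Agent.Y322.NU

open Pool.Agent.Y262.QE Pool.Agent.Y262.NU

/-- a continuous function which does not increase to the right of any point -/
theorem right_mono (G : ℝ → ℝ) (hG : Continuous G) (α β : ℝ) (hab : α ≤ β)
    (h : ∀ t ∈ Ioo α β, ∃ d : ℝ, 0 < d ∧ ∀ h : ℝ, 0 < h → h < d → G (t + h) ≤ G t) :
    G β ≤ G α := by
  rcases eq_or_lt_of_le hab with rfl | hlt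
  · exact le_rfl
  have key : ∀ x ∈ Ioo α β, G β ≤ G x := by
    intro x hx
    have hs : Icc x β ⊆ {s | G s ≤ G x} := by
      apply IsClosed.Icc_subset_of_forall_exists_gt
      · exact (isClosed_le hG continuous_const).inter isClosed_Icc
      · show G x ≤ G x
        exact le_rfl
      · rintro s ⟨hs1, hs2⟩ y hy
        have hsI : s ∈ Ioo α β := ⟨lt_of_lt_of_le hx.1 hs2.1, hs2.2⟩
        obtain ⟨d, hd, hh⟩ := h s hsI
        have hy' : s < y := hy
        refine ⟨s + min (d / 2) (y - s), ?_, ?_, ?_⟩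
        · have h1 : 0 < min (d / 2) (y - s) := lt_min (by linarith) (by linarith)
          have h2 : min (d / 2) (y - s) < d := lt_of_le_of_lt (min_le_left _ _) (by linarith)
          exact (hh _ h1 h2).trans hs1
        · have h1 : 0 < min (d / 2) (y - s) := lt_min (by linarith) (by linarith)
          linarith
        · have := min_le_right (d / 2) (y - s)
          linarith
    exact hs ⟨hx.2.le, le_rfl⟩
  have ht : Tendsto G (𝓝[>] α) (𝓝 (G α)) := hG.continuousAt.tendsto.mono_left nhdsWithin_le_nhds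
  refine ge_of_tendsto ht ?_
  filter_upwards [Ioo_mem_nhdsGT hlt] with x hx
  exact key x hx

section

variable {H : Type} [NormedAddCommGroup H] [InnerProductSpace ℝ H]
  {a : H →L[ℝ] H →L[ℝ] ℝ} {b k : ℝ → H →L[ℝ] H →L[ℝ] ℝ} {K : ℝ}

theorem fly_mono (hMon : StMon) (hF : Fly a b k K) (j : ℕ) (s t : ℝ) (hst : s ≤ t) :
    Ev a (b t) j ≤ Ev a (b s) j := by
  have h := (hMon H a (b s) (b t) (hF.fm s) (hF.fm t) 1 one_pos (fun v => by
    have h1 := hF.up s (t - s) v (by linarith)
    have h2 := (hF.kb s v).1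
    have h3 : s + (t - s) = t := by ring
    rw [h3] at h1
    have h4 : 0 ≤ (t - s) * k s v v := mul_nonneg (by linarith) h2
    linarith) j).2
  linarith

theorem fly_exp (hMon : StMon) (hF : Fly a b k K) (j : ℕ) (s t : ℝ) (hst : s ≤ t) :
    Ev a (b s) j ≤ Real.exp (K * (t - s)) * Ev a (b t) j := by
  exact (hMon H a (b t) (b s) (hF.fm t) (hF.fm s) (Real.exp (K * (t - s))) (Real.exp_pos _)
    (fun v => by
      have h1 := hF.ub s (t - s) v (by linarith)
      have h3 : s + (t - s) = t := by ring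
      rwa [h3] at h1) j).2

theorem fly_nonneg (hMon : StMon) (hF : Fly a b k K) (j : ℕ) (t : ℝ) : 0 ≤ Ev a (b t) j :=
  (hMon H a (b t) (b t) (hF.fm t) (hF.fm t) 1 one_pos (fun v => by linarith) j).1

theorem fly_cont (hMon : StMon) (hF : Fly a b k K) (j : ℕ) :
    Continuous fun t => Ev a (b t) j := by
  rw [continuous_iff_continuousAt]
  intro t0
  set B := Ev a (b (t0 - 1)) j with hB
  have hb : ∀ s : ℝ, |s - t0| ≤ 1 →
      |Ev a (b s) j - Ev a (b t0) j| ≤ |Real.exp (K * |s - t0|) - 1| * B := by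
    intro s hs
    have gen : ∀ x y : ℝ, x ≤ y → t0 - 1 ≤ y →
        |Ev a (b x) j - Ev a (b y) j| ≤ |Real.exp (K * (y - x)) - 1| * B := by
      intro x y hxy hy
      have h1 := fly_mono hMon hF j x y hxy
      have h2 := fly_exp hMon hF j x y hxy
      have h3 := fly_mono hMon hF j (t0 - 1) y hy
      have h4 := fly_nonneg hMon hF j y
      rw [abs_of_nonneg (by linarith)]
      calc Ev a (b x) j - Ev a (b y) j ≤ (Real.exp (K * (y - x)) - 1) * Ev a (b y) j := by
            linarith
        _ ≤ |Real.exp (K * (y - x)) - 1| * Ev a (b y) j :=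
            mul_le_mul_of_nonneg_right (le_abs_self _) h4
        _ ≤ |Real.exp (K * (y - x)) - 1| * B := mul_le_mul_of_nonneg_left h3 (abs_nonneg _)
    have hs1 := abs_le.mp hs
    rcases le_total s t0 with h | h
    · have e : |s - t0| = t0 - s := by rw [abs_of_nonpos (by linarith)]; ring
      rw [e]
      exact gen s t0 h (by linarith)
    · have e : |s - t0| = s - t0 := abs_of_nonneg (by linarith)
      rw [e, abs_sub_comm]
      exact gen t0 s h (by linarith)
  have hlim : Tendsto (fun s : ℝ => |Real.exp (K * |s - t0|) - 1| * B) (𝓝 t0) (𝓝 0) := by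
    have hc : Continuous (fun s : ℝ => |Real.exp (K * |s - t0|) - 1| * B) := by fun_prop
    have := hc.tendsto t0
    simpa using this
  have hsub : Tendsto (fun s : ℝ => Ev a (b s) j - Ev a (b t0) j) (𝓝 t0) (𝓝 0) := by
    apply squeeze_zero_norm' _ hlim
    filter_upwards [Metric.closedBall_mem_nhds t0 one_pos] with s hs
    rw [Real.norm_eq_abs]
    exact hb s (by simpa [Real.dist_eq] using hs)
  have := hsub.add_const (Ev a (b t0) j)
  simp only [sub_add_cancel, zero_add] at this
  exact this

end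

theorem var1 (hSp : StSp) (hMM : StMM) (hMon : StMon) (hDer : StDer) : StVar1 := by
  intro H _ _ _ a b k K hF α β m j hab hm hyp
  rcases eq_or_lt_of_le hm with rfl | hmpos
  · simpa using fly_mono hMon hF j α β hab
  have hmain : ∀ m' : ℝ, 0 ≤ m' → m' < m →
      Ev a (b β) j ≤ Real.exp (-(m' * (β - α))) * Ev a (b α) j := by
    intro m' hm0 hm1
    have hcont : Continuous fun t => Real.exp (m' * t) * Ev a (b t) j :=
      (by fun_prop : Continuous fun t : ℝ => Real.exp (m' * t)).mul (fly_cont hMon hF j)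
    have h1 := right_mono (fun t => Real.exp (m' * t) * Ev a (b t) j) hcont α β hab (by
      intro t ht
      obtain ⟨e, EE, hEg⟩ := hSp H a (b t) (hF.fm t)
      have hE := hMM H a (b t) (hF.fm t) e EE hEg j
      obtain ⟨δ, hδ, hh⟩ := hDer H a (b t) (hF.fm t) e EE hEg (k t) K (hF.sk t) (hF.kb t) j m m'
        hm0 hm1 (fun v hv => hyp t ht v (fun w => by rw [hE]; exact hv w))
      refine ⟨δ, hδ, fun h h0 h1 => ?_⟩
      have h2 := hh h h0 h1 (b (t + h)) (fun v => hF.up t h v h0.le)
      rw [← hE] at h2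
      have h3 : Ev a (b t) j * (1 - m' * h) ≤ Ev a (b t) j * Real.exp (-(m' * h)) := by
        apply mul_le_mul_of_nonneg_left _ (fly_nonneg hMon hF j t)
        have := Real.add_one_le_exp (-(m' * h))
        linarith
      have h4 : Ev a (b (t + h)) j ≤ Ev a (b t) j * Real.exp (-(m' * h)) := h2.trans h3
      show Real.exp (m' * (t + h)) * Ev a (b (t + h)) j ≤ Real.exp (m' * t) * Ev a (b t) j
      calc Real.exp (m' * (t + h)) * Ev a (b (t + h)) j
          ≤ Real.exp (m' * (t + h)) * (Ev a (b t) j * Real.exp (-(m' * h))) :=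
            mul_le_mul_of_nonneg_left h4 (Real.exp_pos _).le
        _ = Real.exp (m' * t) * Ev a (b t) j := by
            rw [mul_add, Real.exp_add, Real.exp_neg]
            have := (Real.exp_pos (m' * h)).ne'
            field_simp)
    have h2 : Real.exp (m' * β) * Ev a (b β) j ≤ Real.exp (m' * α) * Ev a (b α) j := h1
    have e1 : Real.exp (-(m' * (β - α))) = Real.exp (m' * α) / Real.exp (m' * β) := by
      rw [← Real.exp_sub]; congr 1; ring
    rw [e1, div_mul_eq_mul_div, le_div_iff₀ (Real.exp_pos _)]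
    linarith
  have hc : Continuous fun m' : ℝ => Real.exp (-(m' * (β - α))) * Ev a (b α) j := by fun_prop
  have ht : Tendsto (fun m' : ℝ => Real.exp (-(m' * (β - α))) * Ev a (b α) j) (𝓝[<] m)
      (𝓝 (Real.exp (-(m * (β - α))) * Ev a (b α) j)) :=
    (hc.tendsto m).mono_left nhdsWithin_le_nhds
  refine ge_of_tendsto ht ?_
  filter_upwards [Ioo_mem_nhdsLT hmpos] with x hx
  exact hmain x hx.1.le hx.2

end Pool.Agent.Y322.NU
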